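import Pool.Agent.Run7.h334.KSR.Setting

/-!
# Definitions: growth rates of classes, fixed points
-/

set_option autoImplicit false

open Filter Topology
open Pool.Agent.Q8.KS Run7.h334.KSR

namespace Run7.h528.KB

variable {G : Type} [Group G]

/-- `d` is the growth rate of the class `D` under the pull back by `f`: the limit of
`((f^n)^* D ⋅ A^(m-1))^(1/n)`, `m = dim V`. For `D = A` this is the first dynamical degree. -/
def IsGrowthRate {V : Variety G} (f : Morphism V V) (A : V.Pic) (D : V.NS) (d : ℝ) : Prop :=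
  Tendsto (fun n : ℕ => (V.deg (V.cls A) ((f.ns ^ n) D)) ^ (1 / (n : ℝ))) atTop (𝓝 d)

/-- The fixed points of the automorphisms form closed subsets, and an automorphism which fixes all
points is the identity on classes. (These are standard facts.) -/
structure ClosedFixedPoints {V : ProjVariety G} {r : ℕ} (Φ : LatticeAction V r) : Prop where
  closed : ∀ v, IsClosed {x | (Φ.f v).pt x = x}
  identity : ∀ v, (∀ x, (Φ.f v).pt x = x) → ∀ D, (Φ.f v).ns D = D

section

variable {V : ProjVariety G} {r k ρ : ℕ}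

/-- The group `N¹(V)` of rank `ρ` contains with finite index a direct sum `Λ_1 ⊕ … ⊕ Λ_k` of groups
of rank at least `2`, with the basis `U`, `U j` being in `Λ_i` for `i = β j`, such that `f_v^*` maps
each `Λ_i` into itself for all elements `f_v` of the group `ℤ ^ r`, and `r = ρ - k`. -/
structure InvariantBlocks (Φ : LatticeAction V r) (U : Module.Basis (Fin ρ) ℝ V.NS)
    (β : Fin ρ → Fin k) : Prop where
  two : ∀ i, ∃ j j', j ≠ j' ∧ β j = i ∧ β j' = i
  dim : ρ = r + k
  invariant : ∀ v j, ∃ a : Fin ρ → ℤ, (∀ l, β l ≠ β j → a l = 0) ∧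
    (Φ.f v).ns (U j) = ∑ l, (a l : ℝ) • U l

/-- The classes `e i` are nef and not zero, `e i` is in `Λ_i ⊗ ℝ`, and the sum is ample. -/
structure BlockClasses (U : Module.Basis (Fin ρ) ℝ V.NS) (β : Fin ρ → Fin k)
    (e : Fin k → V.NS) : Prop where
  nef : ∀ i, e i ∈ V.Nef
  ne_zero : ∀ i, e i ≠ 0
  mem : ∀ i, e i ∈ Submodule.span ℝ (U '' {j | β j = i})
  ample : ∑ i, e i ∈ interior V.Nef

/-- The orbits and arithmetic degrees of the point `x` are those of the class
`e_s = ∑ e_i`, `i` in `s`. -/
structure HasSupport (Φ : LatticeAction V r) (A : V.Pic) (u : V.Pt → ℝ) (e : Fin k → V.NS)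
    (x : V.Pt) (s : Finset (Fin k)) : Prop where
  /-- `s` is empty if and only if the orbit of `x` under the group is finite -/
  finite : s = ∅ ↔ (Set.range fun v => (Φ.f v).pt x).Finite
  /-- then `a_(f_v)(x) = 1` for all `v` -/
  degree_one : s = ∅ → ∀ v, IsArithmeticDegree (Φ.f v) u x 1
  /-- if `s` is not empty then `a_(f_v)(x)` is the growth rate of `e_s` under `f_v^*`, for all `v` -/
  degree : s.Nonempty → ∀ v, ∃ d, IsGrowthRate (Φ.f v) A (∑ i ∈ s, e i) d ∧
    IsArithmeticDegree (Φ.f v) u x d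
  /-- the elements `w` of the stabilizer of `x` satisfy `f_w^* e_i = e_i` for all `i` in `s` -/
  stabilizer : ∀ w, (Φ.f w).pt x = x → ∀ i ∈ s, (Φ.f w).ns (e i) = e i
  /-- the orbit of `x` under the group of these `w` is finite, so the index of the stabilizer is -/
  index : {z | ∃ w, (∀ i ∈ s, (Φ.f w).ns (e i) = e i) ∧ z = (Φ.f w).pt x}.Finite
  /-- if `s` does not contain all `i` then the stabilizer is not trivial -/
  fixed : s ≠ Finset.univ → ∃ w, w ≠ 0 ∧ (Φ.f w).pt x = x
  /-- if `s` contains all `i` then `a_(f_v)(x) = d₁(f_v)` for all `v` -/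
  full : s = Finset.univ → ∀ v d, IsDynamicalDegree (Φ.f v) A d →
    IsArithmeticDegree (Φ.f v) u x d

/-- The orbit of `x` under the group is Zariski dense, or the forward orbit of `x` under some `f_w`
is. -/
def HasDenseOrbit (Φ : LatticeAction V r) (x : V.Pt) : Prop :=
  Dense (Set.range fun v => (Φ.f v).pt x) ∨
    ∃ w, Dense (Set.range fun n : ℕ => (Φ.f w).pt^[n] x)

end

end Run7.h528.KB
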