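import Pool.Agent.Run7.h528.KB.Main

/-!
# Arithmetic degrees of all points for groups with invariant blocks of classes
-/

set_option autoImplicit false

open Filter Topology
open Pool.Agent.Q8.KS Run7.h334.KSR Run7.h528.MB
open Pool.Agent.N110.CC (PC Frm ev ev_add ev_zero ev_neg ev_nsmul)

namespace Run7.h528.KB

variable {G : Type} [Group G] {V : ProjVariety G} {r k ρ : ℕ}

section

variable {Φ : LatticeAction V r} {U : Module.Basis (Fin ρ) ℝ V.NS} {β : Fin ρ → Fin k}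
  {W : Finset (Frm r)} {Ab : Fin k → Finset (Frm r)} {b : Module.Basis W ℝ (Fin ρ → ℝ)}

theorem repr_sum (y : Frm r → ℝ) (ℓ : W) :
    b.repr (U.equivFun (∑ ℓ ∈ W, y ℓ • cl U b ℓ)) ℓ = y ℓ.1 := by
  classical
  have h2 : U.equivFun (∑ ℓ ∈ W, y ℓ • cl U b ℓ) = ∑ ℓ : W, y ℓ.1 • b ℓ := by
    rw [← Finset.sum_coe_sort W, map_sum]
    refine Finset.sum_congr rfl fun ℓ _ => ?_
    rw [map_smul, cl_mem, LinearEquiv.apply_symm_apply]
  rw [h2, b.repr_sum_self]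

/-- the class of a block -/
noncomputable def eb (U : Module.Basis (Fin ρ) ℝ V.NS) (b : Module.Basis W ℝ (Fin ρ → ℝ))
    (Ab : Fin k → Finset (Frm r)) (i : Fin k) : V.NS := ∑ ℓ ∈ Ab i, cl U b ℓ

theorem eb_eq (st : StrB (Cc U) (Gc U Φ) (Pi.basisFun ℝ (Fin ρ)) β W Ab b) (i : Fin k)
    [DecidablePred (· ∈ Ab i)] :
    eb U b Ab i = ∑ ℓ ∈ W, (if ℓ ∈ Ab i then (1 : ℝ) else 0) • cl U b ℓ := by
  classical
  unfold eb
  have h1 : ∑ ℓ ∈ W, (if ℓ ∈ Ab i then (1 : ℝ) else 0) • cl U b ℓ =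
      ∑ ℓ ∈ W, if ℓ ∈ Ab i then cl U b ℓ else 0 := by
    refine Finset.sum_congr rfl fun ℓ _ => ?_
    by_cases h : ℓ ∈ Ab i
    · rw [if_pos h, if_pos h, one_smul]
    · rw [if_neg h, if_neg h, zero_smul]
  rw [h1, ← Finset.sum_filter]
  congr 1
  ext ℓ
  rw [Finset.mem_filter]
  exact ⟨fun h => ⟨st.blk.sub i h, h⟩, fun h => h.2⟩

/-- the elements which fix the class of a block act trivially on the block -/
theorem fix_iff (st : StrB (Cc U) (Gc U Φ) (Pi.basisFun ℝ (Fin ρ)) β W Ab b) (i : Fin k)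
    (w : Fin r → ℤ) : (Φ.f w).ns (eb U b Ab i) = eb U b Ab i ↔ ∀ ℓ ∈ Ab i, ev ℓ w = 0 := by
  classical
  constructor
  · intro h ℓ hℓ
    have h1 := st.repr_G w (U.equivFun (eb U b Ab i)) ⟨ℓ, st.blk.sub i hℓ⟩
    rw [Gc_apply, LinearEquiv.symm_apply_apply, h, eb_eq st i, repr_sum] at h1
    simp only [if_pos hℓ, mul_one] at h1
    exact (Real.exp_eq_one_iff _).1 h1.symm
  · intro h
    unfold eb
    rw [map_sum]
    refine Finset.sum_congr rfl fun ℓ hℓ => ?_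
    rw [cl_eig st (st.blk.sub i hℓ), h ℓ hℓ, Real.exp_zero, one_smul]

theorem cl_span (st : StrB (Cc U) (Gc U Φ) (Pi.basisFun ℝ (Fin ρ)) β W Ab b) {i : Fin k}
    {ℓ : Frm r} (hℓ : ℓ ∈ Ab i) : cl U b ℓ ∈ Submodule.span ℝ (U '' {j | β j = i}) := by
  have hW := st.blk.sub i hℓ
  rw [cl_mem ⟨ℓ, hW⟩, U.equivFun_symm_apply]
  refine Submodule.sum_mem _ fun j _ => ?_
  by_cases hj : β j = i
  · exact Submodule.smul_mem _ _ (Submodule.subset_span ⟨j, hj, rfl⟩)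
  · have h1 := st.proj i ⟨ℓ, hW⟩ hℓ
    have h2 := repr_pr (B := Pi.basisFun ℝ (Fin ρ)) (β := β) i (b ⟨ℓ, hW⟩) j
    rw [h1, if_neg hj] at h2
    have h3 : b ⟨ℓ, hW⟩ j = 0 := h2
    rw [h3, zero_smul]
    exact Submodule.zero_mem _

theorem sum_eb (st : StrB (Cc U) (Gc U Φ) (Pi.basisFun ℝ (Fin ρ)) β W Ab b)
    (s : Finset (Fin k)) [DecidableEq (Frm r)] :
    ∑ i ∈ s, eb U b Ab i = ∑ ℓ ∈ s.biUnion Ab, (1 : ℝ) • cl U b ℓ := by
  rw [Finset.sum_biUnion fun i _ j _ hij => by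
    show Disjoint (Ab i) (Ab j)
    rw [Finset.disjoint_left]
    intro ℓ hi hj
    exact hij (st.blk.disj hi hj)]
  refine Finset.sum_congr rfl fun i _ => ?_
  unfold eb
  exact Finset.sum_congr rfl fun ℓ _ => (one_smul _ _).symm

end

/-- **Arithmetic degrees.** -/
theorem final (hr : 0 < r) (Φ : LatticeAction V r) {A : V.Pic} (hA : V.IsAmple A)
    {u : V.Pt → ℝ} (hu : V.IsHeight A u)
    (hpos : ∀ v : Fin r → ℤ, v ≠ 0 → ∃ d, 1 < d ∧ IsDynamicalDegree (Φ.f v) A d)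
    (U : Module.Basis (Fin ρ) ℝ V.NS) {β : Fin ρ → Fin k}
    (hβ : ∀ i, ∃ j j', j ≠ j' ∧ β j = i ∧ β j' = i) (hρ : ρ = r + k)
    (hbl : ∀ v j, ∃ a : Fin ρ → ℤ, (∀ l, β l ≠ β j → a l = 0) ∧
      (Φ.f v).ns (U j) = ∑ l, (a l : ℝ) • U l) :
    ∃ e : Fin k → V.NS,
      (∀ i, e i ∈ V.Nef ∧ e i ≠ 0 ∧ e i ∈ Submodule.span ℝ (U '' {j | β j = i})) ∧
      ∑ i, e i ∈ interior V.Nef ∧
      (∀ x, ∃ s : Finset (Fin k),
        (s = ∅ ↔ (Set.range fun v => (Φ.f v).pt x).Finite) ∧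
        (s = ∅ → ∀ v, IsArithmeticDegree (Φ.f v) u x 1) ∧
        (s.Nonempty → ∀ v, ∃ d, IsGrowthRate (Φ.f v) A (∑ i ∈ s, e i) d ∧
          IsArithmeticDegree (Φ.f v) u x d) ∧
        (∀ w, (Φ.f w).pt x = x → ∀ i ∈ s, (Φ.f w).ns (e i) = e i) ∧
        {z | ∃ w, (∀ i ∈ s, (Φ.f w).ns (e i) = e i) ∧ z = (Φ.f w).pt x}.Finite ∧
        (s ≠ Finset.univ → ∃ w, w ≠ 0 ∧ (Φ.f w).pt x = x) ∧
        (s = Finset.univ → ∀ v d, IsDynamicalDegree (Φ.f v) A d →
          IsArithmeticDegree (Φ.f v) u x d)) ∧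
      ∀ N : ℕ, {x | (MulAction.orbit G x).ncard ≤ N ∧
        (Set.range fun v => (Φ.f v).pt x).Finite}.Finite := by
  classical
  obtain ⟨W, Ab, b, st⟩ := exists_blocks hr Φ hA hu hpos U hβ hρ hbl
  have hAne : ∀ i, (Ab i).Nonempty := fun i => Finset.card_pos.1 (by
    have h1 := st.blk.key.1 i
    have h2 := st.blk.two i
    omega)
  have hk : 0 < k := by
    rcases Nat.eq_zero_or_pos k with h | h
    · exfalso
      subst h
      obtain ⟨ℓ, hℓ, -⟩ := st.blk.grow.choose_spec.2 0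
      obtain ⟨i, -⟩ := st.blk.ex ℓ hℓ
      exact i.elim0
    · exact h
  have hWne : W.Nonempty := by
    obtain ⟨ℓ, hℓ⟩ := hAne ⟨0, hk⟩
    exact ⟨ℓ, st.blk.sub _ hℓ⟩
  obtain ⟨S, hF, hhp, hdeg⟩ := exists_sys hA hu hpos st hWne
  have hFx : ∀ v x, S.F v x = (Φ.f v).pt x := fun v x => by rw [hF]
  have harith : ∀ v x d, Tendsto (fun n : ℕ => (S.hp ((S.F v)^[n] x)) ^ (1 / (n : ℝ))) atTop
      (𝓝 d) → IsArithmeticDegree (Φ.f v) u x d := by
    intro v x d h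
    unfold IsArithmeticDegree
    rw [hhp, hF] at h
    exact h
  have hrange : ∀ x, (Set.range fun v => S.F v x) = Set.range fun v => (Φ.f v).pt x := fun x => by
    rw [hF]
  have hUn : Finset.univ.biUnion Ab = W := by
    ext ℓ
    rw [Finset.mem_biUnion]
    constructor
    · rintro ⟨i, -, hi⟩
      exact st.blk.sub i hi
    · intro hℓ
      obtain ⟨i, hi⟩ := st.blk.ex ℓ hℓ
      exact ⟨i, Finset.mem_univ _, hi⟩
  refine ⟨eb U b Ab, fun i => ⟨?_, ?_, ?_⟩, ?_, fun x => ⟨S.supp x, ?_, fun h v => ?_,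
    fun h v => ?_, fun w hw i hi => ?_, ?_, fun h => ?_, fun h v d hd => ?_⟩, fun N => ?_⟩
  · unfold eb
    exact sum_mem V.nef_cone _ _ fun ℓ => by
      by_cases hℓ : ℓ ∈ W
      · intro _
        exact cl_nef st hℓ
      · intro hi
        exact absurd (st.blk.sub i hi) hℓ
  · intro h0
    obtain ⟨ℓ, hℓ⟩ := hAne i
    have h1 := repr_sum (U := U) (b := b) (fun ℓ => if ℓ ∈ Ab i then (1 : ℝ) else 0)
      ⟨ℓ, st.blk.sub i hℓ⟩
    rw [← eb_eq st i, h0, map_zero, map_zero, Finsupp.zero_apply] at h1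
    simp only [if_pos hℓ] at h1
    norm_num at h1
  · unfold eb
    exact Submodule.sum_mem _ fun ℓ hℓ => cl_span st hℓ
  · rw [sum_eb st, hUn]
    exact ample_of_pos st fun _ _ => one_pos
  · rw [S.finite_iff, hrange]
  · exact harith v x 1 (S.growth_empty h v)
  · obtain ⟨T, hT⟩ : ∃ T, T = (S.supp x).biUnion Ab := ⟨_, rfl⟩
    have hTne : T.Nonempty := by
      obtain ⟨i, hi⟩ := h
      obtain ⟨ℓ, hℓ⟩ := hAne i
      exact ⟨ℓ, by rw [hT, Finset.mem_biUnion]; exact ⟨i, hi, hℓ⟩⟩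
    have hTW : T ⊆ W := by
      intro ℓ hℓ
      rw [hT, Finset.mem_biUnion] at hℓ
      obtain ⟨i, -, hi⟩ := hℓ
      exact st.blk.sub i hi
    refine ⟨T.sup' hTne fun ℓ => Real.exp (ev ℓ v), ?_, harith v x _ (S.growth x v hT hTne)⟩
    rw [sum_eb st, ← hT]
    exact class_rate st hA hTW hTne (fun _ _ => one_pos) v
  · rw [fix_iff st]
    rw [← hFx] at hw
    exact fun ℓ hℓ => S.stab hw hi hℓ
  · refine (S.stab_finite x).subset ?_
    rintro z ⟨w, hw, rfl⟩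
    exact ⟨w, fun i hi => (fix_iff st i w).1 (hw i hi), (hFx w x).symm⟩
  · obtain ⟨w, hw, h1⟩ := S.fixed h
    exact ⟨w, hw, by rw [← hFx]; exact h1⟩
  · obtain ⟨a, ha, haA⟩ := expand (U := U) (b := b) (V.cls A)
    have hrate := class_rate st hA (T := W) subset_rfl hWne (ample_pos st hA ha) v
    rw [← haA] at hrate
    have hdeq : d = W.sup' hWne fun ℓ => Real.exp (ev ℓ v) := tendsto_nhds_unique hd hrate
    rw [hdeq]
    exact harith v x _ (S.growth x v (T := W) (by rw [h, hUn]) hWne)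
  · have h1 := S.finite_deg N
    rw [hdeg] at h1
    refine h1.subset ?_
    rintro x ⟨hx, hx'⟩
    refine ⟨hx, ?_⟩
    rw [hrange]
    exact hx'

/-- **Dense orbits.** -/
theorem dense (hr : 0 < r) (Φ : LatticeAction V r) {A : V.Pic} (hA : V.IsAmple A)
    {u : V.Pt → ℝ} (hu : V.IsHeight A u)
    (hpos : ∀ v : Fin r → ℤ, v ≠ 0 → ∃ d, 1 < d ∧ IsDynamicalDegree (Φ.f v) A d)
    (U : Module.Basis (Fin ρ) ℝ V.NS) {β : Fin ρ → Fin k}
    (hβ : ∀ i, ∃ j j', j ≠ j' ∧ β j = i ∧ β j' = i) (hρ : ρ = r + k)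
    (hbl : ∀ v j, ∃ a : Fin ρ → ℤ, (∀ l, β l ≠ β j → a l = 0) ∧
      (Φ.f v).ns (U j) = ∑ l, (a l : ℝ) • U l) (hfix : ClosedFixedPoints Φ) {x : V.Pt}
    (hx : Dense (Set.range fun v => (Φ.f v).pt x) ∨
      ∃ w, Dense (Set.range fun k : ℕ => (Φ.f w).pt^[k] x)) (v : Fin r → ℤ) (d : ℝ)
    (hd : IsDynamicalDegree (Φ.f v) A d) : IsArithmeticDegree (Φ.f v) u x d := by
  have hdense : Dense (Set.range fun v => (Φ.f v).pt x) := by
    rcases hx with h | ⟨w, h⟩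
    · exact h
    · refine h.mono ?_
      rintro _ ⟨k, rfl⟩
      refine ⟨k • w, ?_⟩
      induction k with
      | zero => simp [Φ.pt_zero]
      | succ k ih =>
        simp only at ih ⊢
        rw [Function.iterate_succ_apply', ← ih, ← Φ.pt_add, succ_nsmul, add_comm]
  obtain ⟨e, -, -, h1, -⟩ := final hr Φ hA hu hpos U hβ hρ hbl
  obtain ⟨s, -, -, -, -, -, h2, h3⟩ := h1 x
  by_cases hs : s = Finset.univ
  · exact h3 hs v d hd
  · exfalso
    obtain ⟨w, hw, hwx⟩ := h2 hs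
    have h4 : ∀ y, (Φ.f w).pt y = y := by
      intro y
      have h5 : (Set.range fun v => (Φ.f v).pt x) ⊆ {y | (Φ.f w).pt y = y} := by
        rintro _ ⟨v', rfl⟩
        show (Φ.f w).pt ((Φ.f v').pt x) = (Φ.f v').pt x
        rw [← Φ.pt_add, add_comm, Φ.pt_add, hwx]
      have h6 := closure_minimal h5 (hfix.closed w)
      rw [hdense.closure_eq] at h6
      exact h6 (Set.mem_univ y)
    have h5 := hfix.identity w h4
    obtain ⟨d', hd', hdyn⟩ := hpos w hw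
    have hns : ∀ k : ℕ, ((Φ.f w).ns ^ k) (V.cls A) = V.cls A := by
      intro k
      induction k with
      | zero => simp
      | succ k ih => rw [pow_succ', Module.End.mul_apply, ih, h5]
    have hdeg : 0 < V.deg (V.cls A) (V.cls A) := by
      have := deg_pos (V.deg (V.cls A)) (fun x hx h0 => V.int_pos _ hA x hx h0)
        (interior_subset hA) (Φ.f w).ns (Φ.f w).nef (by linarith) hdyn 0
      simpa using this
    have hd1 : d' = 1 := by
      refine tendsto_nhds_unique hdyn ?_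
      refine (const_rpow_tendsto hdeg).congr fun k => ?_
      rw [hns]
    linarith

end Run7.h528.KB
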