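import Pool.Agent.Run7.h528.MB.Cover
import Pool.Agent.Run7.h334.KSR.Main

/-!
# Groups of automorphisms acting on the nef cone: exponential growth and invariant blocks
-/

set_option autoImplicit false

open Filter Topology
open Pool.Agent.Q8.KS Run7.h334.KSR Run7.h528.MB
open Pool.Agent.N110.CC (PC Frm ev ev_add ev_zero ev_neg ev_nsmul)

namespace Run7.h528.KB

/-- the characters grow in all directions -/
theorem exists_delta {r n : ℕ} (hr : 0 < r) (χ : Fin n → (Fin r → ℤ) → ℝ)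
    (h0 : ∀ i v, 0 < χ i v) (hadd : ∀ i v w, χ i (v + w) = χ i v * χ i w) {η : ℝ} (hη : 0 < η)
    (hlow : ∀ v : Fin r → ℤ, v ≠ 0 → ∃ i, η ≤ Real.log (χ i v)) :
    ∃ δ : ℝ, 0 < δ ∧ ∀ v : Fin r → ℤ, ∃ i, δ * ∑ j, |(v j : ℝ)| ≤ Real.log (χ i v) := by
  classical
  have : Nonempty (Fin r) := ⟨⟨0, hr⟩⟩
  have hpos : ∀ x : Fin r → ℝ, x ≠ 0 → ∃ i, 0 < tau χ x i := fun x hx =>
    exists_pos χ h0 hadd hη hlow hx
  obtain ⟨i₀, -⟩ := hpos (fun _ => 1) (fun h => by
    have := congrFun h ⟨0, hr⟩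
    norm_num at this)
  have hn : 0 < n := Fin.pos i₀
  obtain ⟨F, hF⟩ : ∃ F : (Fin r → ℝ) → ℝ, ∀ x, F x = ∑ i, max 0 (tau χ x i) := ⟨_, fun _ => rfl⟩
  have hFc : Continuous F := by
    have h1 : F = fun x => ∑ i, max 0 (tau χ x i) := funext hF
    rw [h1]
    refine continuous_finsetSum _ fun i _ => continuous_const.max ?_
    exact (continuous_apply i).comp (tau χ).continuous_of_finiteDimensional
  obtain ⟨x₀, hx₀, hmin⟩ := (isCompact_sphere (0 : Fin r → ℝ) 1).exists_isMinOn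
    (NormedSpace.sphere_nonempty.2 zero_le_one) hFc.continuousOn
  have hx₀n : x₀ ≠ 0 := by
    intro h
    rw [h] at hx₀
    simp at hx₀
  have hFx : 0 < F x₀ := by
    obtain ⟨i, hi⟩ := hpos x₀ hx₀n
    rw [hF]
    exact Finset.sum_pos' (fun _ _ => le_max_left _ _) ⟨i, Finset.mem_univ i,
      lt_of_lt_of_le hi (le_max_right _ _)⟩
  have hnR : (0 : ℝ) < n := by exact_mod_cast hn
  have hrR : (0 : ℝ) < r := by exact_mod_cast hr
  refine ⟨F x₀ / (n * r), by positivity, fun v => ?_⟩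
  by_cases hv : v = 0
  · subst hv
    refine ⟨i₀, ?_⟩
    have h1 := hadd i₀ 0 0
    rw [add_zero] at h1
    have h2 : χ i₀ 0 = 1 := by
      have := h0 i₀ 0
      field_simp at h1
      linarith
    rw [h2, Real.log_one]
    simp
  · obtain ⟨x, hx⟩ : ∃ x : Fin r → ℝ, x = fun j => (v j : ℝ) := ⟨_, rfl⟩
    have hx0 : x ≠ 0 := by
      intro h
      apply hv
      funext j
      have h1 := congrFun h j
      rw [hx] at h1
      have h2 : ((v j : ℤ) : ℝ) = 0 := h1
      exact_mod_cast h2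
    have hxn : 0 < ‖x‖ := norm_pos_iff.2 hx0
    have h1 : F x₀ ≤ F (‖x‖⁻¹ • x) := by
      refine hmin ?_
      rw [mem_sphere_zero_iff_norm, norm_smul, norm_inv, norm_norm, inv_mul_cancel₀ hxn.ne']
    have h2 : F (‖x‖⁻¹ • x) = ‖x‖⁻¹ * F x := by
      rw [hF, hF, Finset.mul_sum]
      refine Finset.sum_congr rfl fun i _ => ?_
      rw [map_smul, Pi.smul_apply, smul_eq_mul, mul_max_of_nonneg _ _ (inv_nonneg.2 hxn.le),
        mul_zero]
    have h3 : F x₀ * ‖x‖ ≤ F x := by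
      rw [h2, inv_mul_eq_div, le_div_iff₀ hxn] at h1
      exact h1
    obtain ⟨i, hi⟩ : ∃ i, F x₀ * ‖x‖ / n ≤ tau χ x i := by
      by_contra hcon
      push Not at hcon
      have h4 : F x < ∑ _i : Fin n, F x₀ * ‖x‖ / n := by
        rw [hF]
        refine Finset.sum_lt_sum_of_nonempty ⟨i₀, Finset.mem_univ _⟩ fun i _ => ?_
        exact max_lt (by positivity) (hcon i)
      rw [Finset.sum_const, Finset.card_univ, Fintype.card_fin, nsmul_eq_mul,
        mul_div_cancel₀ _ hnR.ne'] at h4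
      linarith
    refine ⟨i, ?_⟩
    have h4 : tau χ x i = Real.log (χ i v) := by
      rw [hx]
      exact tau_int χ h0 hadd v i
    rw [← h4]
    refine le_trans ?_ hi
    have h5 : ∑ j, |(v j : ℝ)| ≤ r * ‖x‖ := by
      have h6 : ∀ j, |(v j : ℝ)| ≤ ‖x‖ := by
        intro j
        have h7 := norm_le_pi_norm x j
        rw [hx, Real.norm_eq_abs] at h7
        rw [hx]
        exact h7
      refine (Finset.sum_le_sum fun j _ => h6 j).trans (le_of_eq ?_)
      rw [Finset.sum_const, Finset.card_univ, Fintype.card_fin, nsmul_eq_mul]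
    calc F x₀ / (n * r) * ∑ j, |(v j : ℝ)| ≤ F x₀ / (n * r) * (r * ‖x‖) :=
          mul_le_mul_of_nonneg_left h5 (by positivity)
      _ = F x₀ * ‖x‖ / n := by field_simp

variable {G : Type} [Group G] {V : ProjVariety G} {r k ρ : ℕ}

/-- the action in coordinates -/
noncomputable def Gc (U : Module.Basis (Fin ρ) ℝ V.NS) (Φ : LatticeAction V r) (v : Fin r → ℤ) :
    (Fin ρ → ℝ) →ₗ[ℝ] (Fin ρ → ℝ) :=
  U.equivFun.toLinearMap ∘ₗ (Φ.f v).ns ∘ₗ U.equivFun.symm.toLinearMap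

theorem Gc_apply (U : Module.Basis (Fin ρ) ℝ V.NS) (Φ : LatticeAction V r) (v : Fin r → ℤ)
    (t : Fin ρ → ℝ) : Gc U Φ v t = U.equivFun ((Φ.f v).ns (U.equivFun.symm t)) := rfl

/-- the nef cone in coordinates -/
def Cc (U : Module.Basis (Fin ρ) ℝ V.NS) : Set (Fin ρ → ℝ) := U.equivFun.symm ⁻¹' V.Nef

theorem pc (U : Module.Basis (Fin ρ) ℝ V.NS) {A : V.Pic} (hA : V.IsAmple A) : PC (Cc U) := by
  refine ⟨?_, fun x hx y hy => ?_, fun t ht x hx => ?_, fun x hx hx' => ?_⟩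
  · exact V.nef_cone.closed.preimage
      (LinearMap.continuous_of_finiteDimensional U.equivFun.symm.toLinearMap)
  · show U.equivFun.symm (x + y) ∈ V.Nef
    rw [map_add]
    exact V.nef_cone.add _ hx _ hy
  · show U.equivFun.symm (t • x) ∈ V.Nef
    rw [map_smul]
    exact V.nef_cone.smul t ht _ hx
  · by_contra h0
    have h1 : U.equivFun.symm x ≠ 0 := fun h => h0 (by
      have := congrArg U.equivFun h
      rwa [LinearEquiv.apply_symm_apply, map_zero] at this)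
    have hx2 : -U.equivFun.symm x ∈ V.Nef := by
      rw [← map_neg]
      exact hx'
    have h2 : 0 < V.deg (V.cls A) (U.equivFun.symm x) := V.int_pos _ hA _ hx h1
    have h3 : 0 < V.deg (V.cls A) (-U.equivFun.symm x) := V.int_pos _ hA _ hx2 (neg_ne_zero.2 h1)
    rw [map_neg] at h3
    linarith

theorem interior_Cc (U : Module.Basis (Fin ρ) ℝ V.NS) (t : Fin ρ → ℝ) :
    t ∈ interior (Cc U) ↔ U.equivFun.symm t ∈ interior V.Nef := by
  have h1 := (U.equivFun.symm.toContinuousLinearEquiv.toHomeomorph).preimage_interior V.Nef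
  have h2 : interior (Cc U) = U.equivFun.symm ⁻¹' interior V.Nef := h1.symm
  rw [h2]
  rfl

/-- **Growth.** -/
theorem actM (hr : 0 < r) (hρ : 0 < ρ) (Φ : LatticeAction V r) {A : V.Pic} (hA : V.IsAmple A)
    {u : V.Pt → ℝ} (hu : V.IsHeight A u)
    (hpos : ∀ v : Fin r → ℤ, v ≠ 0 → ∃ d, 1 < d ∧ IsDynamicalDegree (Φ.f v) A d)
    (U : Module.Basis (Fin ρ) ℝ V.NS) : ActM r ρ (Cc U) (Gc U Φ) := by
  classical
  obtain ⟨ε, hε, hgap⟩ := exists_gap Φ hA hu
  have hcard := chars_card Φ hA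
  have hfin : (chars Φ).Finite := by
    by_contra hinf
    obtain ⟨t, ht, hc⟩ := Set.Infinite.exists_subset_card_eq hinf (V.dimPred + 1 + 1)
    have := hcard t ht
    omega
  obtain ⟨n, hn⟩ : ∃ n, n = hfin.toFinset.card := ⟨_, rfl⟩
  let e0 := (Finset.equivFinOfCardEq hn.symm).symm
  obtain ⟨χ, hχ⟩ : ∃ χ : Fin n → (Fin r → ℤ) → ℝ, χ = fun i => (e0 i).1 := ⟨_, rfl⟩
  have hχm : ∀ i, χ i ∈ chars Φ := fun i => by
    rw [hχ]
    exact hfin.mem_toFinset.1 (e0 i).2
  have hη : 0 < Real.log (1 + ε) := Real.log_pos (by linarith)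
  obtain ⟨δ, hδ, hgr⟩ := exists_delta hr χ (fun i v => chars_pos Φ (hχm i) v)
    (fun i => chars_add Φ (hχm i)) hη (fun v hv => by
      obtain ⟨d, hd, hdyn⟩ := hpos v hv
      obtain ⟨ψ, hψ, hψv⟩ := exists_char Φ hA v (by linarith) hdyn
      refine ⟨e0.symm ⟨ψ, hfin.mem_toFinset.2 hψ⟩, ?_⟩
      rw [hχ]
      show _ ≤ Real.log ((e0 (e0.symm ⟨ψ, hfin.mem_toFinset.2 hψ⟩)).1 v)
      rw [Equiv.apply_symm_apply]
      show _ ≤ Real.log (ψ v)
      rw [hψv]
      exact Real.log_le_log (by linarith) (hgap v d hd hdyn))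
  refine ⟨hρ, pc U hA, ⟨U.equivFun (V.cls A), ?_⟩, ?_, fun v w => ?_, fun v x hx => ?_, 1, δ,
    one_pos, hδ, fun v => ?_⟩
  · rw [interior_Cc, LinearEquiv.symm_apply_apply]
    exact hA
  · refine LinearMap.ext fun t => ?_
    rw [Gc_apply, Φ.ns_zero, LinearEquiv.apply_symm_apply]
    rfl
  · refine LinearMap.ext fun t => ?_
    rw [Gc_apply, Φ.ns_add, Module.End.mul_apply, Gc_apply, Gc_apply, LinearEquiv.symm_apply_apply]
  · show U.equivFun.symm (Gc U Φ v x) ∈ V.Nef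
    rw [Gc_apply, LinearEquiv.symm_apply_apply]
    exact (Φ.f v).nef _ hx
  · obtain ⟨i, hi⟩ := hgr v
    obtain ⟨c, hcN, hc0, hc⟩ := hχm i
    obtain ⟨t, ht⟩ : ∃ t, t = U.equivFun c := ⟨_, rfl⟩
    have ht0 : t ≠ 0 := by
      rw [ht]
      exact fun h => hc0 (by
        have := congrArg U.equivFun.symm h
        rwa [LinearEquiv.symm_apply_apply, map_zero] at this)
    have htn : 0 < ‖t‖ := norm_pos_iff.2 ht0
    have hGt : Gc U Φ v t = χ i v • t := by
      rw [Gc_apply, ht, LinearEquiv.symm_apply_apply, (hc v).2, map_smul]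
    have h1 : Real.exp (δ * ∑ i, |(v i : ℝ)|) ≤ χ i v := by
      rw [← Real.exp_log (hc v).1]
      exact Real.exp_le_exp.2 hi
    have h2 : χ i v * ‖t‖ ≤ ‖t‖ * ∑ j, ‖Gc U Φ v (Pi.single j 1)‖ := by
      have h3 : ‖Gc U Φ v t‖ = χ i v * ‖t‖ := by
        rw [hGt, norm_smul, Real.norm_eq_abs, abs_of_pos (hc v).1]
      rw [← h3]
      have h4 : Gc U Φ v t = ∑ j, t j • Gc U Φ v (Pi.single j 1) := by
        conv_lhs => rw [← Finset.univ_sum_single t]
        rw [map_sum]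
        refine Finset.sum_congr rfl fun j _ => ?_
        rw [← map_smul]
        congr 1
        funext l
        by_cases hl : l = j
        · subst hl
          simp
        · rw [Pi.single_eq_of_ne hl, Pi.smul_apply, Pi.single_eq_of_ne hl, smul_zero]
      rw [h4, Finset.mul_sum]
      refine norm_sum_le_of_le _ fun j _ => ?_
      rw [norm_smul]
      exact mul_le_mul_of_nonneg_right (norm_le_pi_norm t j) (norm_nonneg _)
    rw [one_mul]
    refine h1.trans ?_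
    rw [mul_comm] at h2
    exact le_of_mul_le_mul_left h2 htn

/-- the eigenclasses and their blocks -/
theorem exists_blocks (hr : 0 < r) (Φ : LatticeAction V r) {A : V.Pic} (hA : V.IsAmple A)
    {u : V.Pt → ℝ} (hu : V.IsHeight A u)
    (hpos : ∀ v : Fin r → ℤ, v ≠ 0 → ∃ d, 1 < d ∧ IsDynamicalDegree (Φ.f v) A d)
    (U : Module.Basis (Fin ρ) ℝ V.NS) {β : Fin ρ → Fin k}
    (hβ : ∀ i, ∃ j j', j ≠ j' ∧ β j = i ∧ β j' = i) (hρ : ρ = r + k)
    (hbl : ∀ v j, ∃ a : Fin ρ → ℤ, (∀ l, β l ≠ β j → a l = 0) ∧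
      (Φ.f v).ns (U j) = ∑ l, (a l : ℝ) • U l) :
    ∃ (W : Finset (Frm r)) (Ab : Fin k → Finset (Frm r)) (b : Module.Basis W ℝ (Fin ρ → ℝ)),
      StrB (Cc U) (Gc U Φ) (Pi.basisFun ℝ (Fin ρ)) β W Ab b := by
  classical
  have hact := actM hr (by omega : 0 < ρ) Φ hA hu hpos U
  have hGB : ∀ v j, ∃ a : Fin ρ → ℤ, (∀ l, β l ≠ β j → a l = 0) ∧
      Gc U Φ v (Pi.basisFun ℝ (Fin ρ) j) = ∑ l, (a l : ℝ) • Pi.basisFun ℝ (Fin ρ) l := by
    intro v j
    obtain ⟨a, ha, h1⟩ := hbl v j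
    refine ⟨a, ha, ?_⟩
    have h2 : U.equivFun.symm (Pi.basisFun ℝ (Fin ρ) j) = U j := by
      rw [Pi.basisFun_apply, LinearEquiv.symm_apply_eq]
      funext l
      rw [U.equivFun_self, Pi.single_apply]
      by_cases h : l = j
      · subst h
        simp
      · simp [h, Ne.symm h]
    rw [Gc_apply, h2, h1, map_sum]
    refine Finset.sum_congr rfl fun l _ => ?_
    rw [map_smul]
    congr 1
    have h3 : U.equivFun.symm (Pi.basisFun ℝ (Fin ρ) l) = U l := by
      rw [Pi.basisFun_apply, LinearEquiv.symm_apply_eq]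
      funext l'
      rw [U.equivFun_self, Pi.single_apply]
      by_cases h : l' = l
      · subst h
        simp
      · simp [h, Ne.symm h]
    rw [← h3, LinearEquiv.apply_symm_apply]
  refine exists_strB Pool.Agent.N386.CC.leafPF
    (Pool.Agent.N707.CC.leafCE Pool.Agent.N386.CC.leafPF)
    (Pool.Agent.N394.CC.leafIND Pool.Agent.N395.CC.leafSEP)
    ⟨hact, fun j i => ?_, hGB, hβ, hρ, fun v x hx i => ?_⟩
  · rw [Pi.basisFun_apply, Pi.single_apply]
    by_cases h : i = j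
    · exact ⟨1, by simp [h]⟩
    · exact ⟨0, by simp [h]⟩
  · choose a ha using hGB v
    choose z hz using hx
    refine ⟨∑ j, z j * a j i, ?_⟩
    have h1 : x = ∑ j, x j • Pi.basisFun ℝ (Fin ρ) j := by
      conv_lhs => rw [← (Pi.basisFun ℝ (Fin ρ)).sum_repr x]
      rfl
    rw [h1, map_sum, Finset.sum_apply]
    push_cast
    refine Finset.sum_congr rfl fun j _ => ?_
    rw [map_smul, (ha j).2, Pi.smul_apply, smul_eq_mul, hz j, Finset.sum_apply]
    congr 1
    rw [Finset.sum_eq_single i]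
    · rw [Pi.smul_apply, Pi.basisFun_apply, Pi.single_eq_same, smul_eq_mul, mul_one]
    · intro l _ hl
      rw [Pi.smul_apply, Pi.basisFun_apply, Pi.single_eq_of_ne (Ne.symm hl), smul_zero]
    · intro h
      exact absurd (Finset.mem_univ _) h

end Run7.h528.KB
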