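import Pool.Agent.Run7.h528.MB.Lin
import Pool.Agent.Q8.KS.Core5

/-!
# Commuting bijections with canonical heights for the elements of blocks of linear forms
-/

set_option autoImplicit false

open Filter Topology
open Run7.h528.MB
open Pool.Agent.N110.CC (Frm ev ev_add ev_zero ev_neg ev_nsmul)
open Pool.Agent.N769.CC (bd bd_nonneg diff_le flr)

namespace Run7.h528.KB

/-- bounds and growth rates -/
theorem rate {a : ℕ → ℝ} {D x y : ℝ} (hD : 0 < D) (hx : 0 < x) (hy : 0 < y)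
    (h1 : ∀ n, x * D ^ n ≤ a n) (h2 : ∀ n, a n ≤ y * D ^ n) :
    Tendsto (fun n : ℕ => (a n) ^ (1 / (n : ℝ))) atTop (𝓝 D) := by
  refine Pool.Agent.Q8.KS.rate_of_bounds (a := fun n => D ^ n) hx hy (fun n => by positivity) ?_
    h1 h2
  refine Tendsto.congr' ?_ tendsto_const_nhds
  filter_upwards [eventually_gt_atTop 0] with n hn
  have hn' : (n : ℝ) ≠ 0 := by exact_mod_cast hn.ne'
  rw [← Real.rpow_natCast, ← Real.rpow_mul hD.le, mul_one_div_cancel hn', Real.rpow_one]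

/-- commuting bijections `F v` with canonical heights `hh ℓ` -/
structure KSys (X : Type) {r k : ℕ} (W : Finset (Frm r)) (A : Fin k → Finset (Frm r))
    (d : Fin k → ℕ) where
  blk : Blk W A d
  F : (Fin r → ℤ) → X → X
  zero : ∀ x, F 0 x = x
  add : ∀ v w x, F (v + w) x = F v (F w x)
  hp : X → ℝ
  one_le : ∀ x, 1 ≤ hp x
  deg : X → ℕ
  deg_F : ∀ v x, deg (F v x) = deg x
  fin : ∀ (e : ℕ) (C : ℝ), {x | deg x ≤ e ∧ hp x ≤ C}.Finite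
  hh : Frm r → X → ℝ
  hh_F : ∀ ℓ ∈ W, ∀ v x, hh ℓ (F v x) = Real.exp (ev ℓ v) * hh ℓ x
  up : ∃ C, 0 < C ∧ ∀ ℓ ∈ W, ∀ x, |hh ℓ x| ≤ C * hp x
  low : ∃ C, 0 < C ∧ ∀ x, hp x ≤ C * (1 + ∑ ℓ ∈ W, |hh ℓ x|)

namespace KSys

variable {X : Type} {r k : ℕ} {W : Finset (Frm r)} {A : Fin k → Finset (Frm r)} {d : Fin k → ℕ}
  (S : KSys X W A d)

theorem iter (v : Fin r → ℤ) (n : ℕ) (x : X) : (S.F v)^[n] x = S.F (n • v) x := by
  induction n with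
  | zero => rw [Function.iterate_zero, id, zero_smul, S.zero]
  | succ n ih => rw [Function.iterate_succ_apply', ih, ← S.add, succ_nsmul, add_comm]

theorem hh_iter {ℓ : Frm r} (hℓ : ℓ ∈ W) (v : Fin r → ℤ) (n : ℕ) (x : X) :
    S.hh ℓ ((S.F v)^[n] x) = Real.exp (ev ℓ v) ^ n * S.hh ℓ x := by
  rw [S.iter, S.hh_F ℓ hℓ, ev_nsmul, Real.exp_nat_mul]

theorem finite_of_bdd (e : ℕ) (C : ℝ) :
    {x | S.deg x ≤ e ∧ ∀ ℓ ∈ W, |S.hh ℓ x| ≤ C}.Finite := by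
  obtain ⟨K, hK, hlow⟩ := S.low
  refine (S.fin e (K * (1 + W.card * C))).subset ?_
  rintro x ⟨hx, hb⟩
  refine ⟨hx, (hlow x).trans (mul_le_mul_of_nonneg_left ?_ hK.le)⟩
  have h1 : ∑ ℓ ∈ W, |S.hh ℓ x| ≤ ∑ _ℓ ∈ W, C := Finset.sum_le_sum fun ℓ hℓ => hb ℓ hℓ
  rw [Finset.sum_const, nsmul_eq_mul] at h1
  linarith

theorem pigeon {x : X} {C : ℝ} (p : ℕ → Fin r → ℤ)
    (hb : ∀ n, ∀ ℓ ∈ W, |S.hh ℓ (S.F (p n) x)| ≤ C) :
    ∃ a b, a < b ∧ S.F (p a) x = S.F (p b) x := by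
  obtain ⟨a, b, h1, h2⟩ := (S.finite_of_bdd (S.deg x) C).exists_lt_map_eq_of_forall_mem
    (f := fun n : ℕ => S.F (p n) x) (fun n => by
      refine ⟨(S.deg_F _ _).le, hb n⟩)
  exact ⟨a, b, h1, h2⟩

/-- **Vanishing.** -/
theorem vanish {x : X} {i : Fin k} {ℓ₀ : Frm r} (hi : ℓ₀ ∈ A i) (h0 : S.hh ℓ₀ x = 0) :
    (∀ ℓ ∈ A i, S.hh ℓ x = 0) ∧ ∃ w, w ≠ 0 ∧ S.F w x = x := by
  classical
  obtain ⟨v, hv⟩ := S.blk.key.2 (fun l m => if l = i then (if m = ℓ₀ then (d i : ℝ) else 0) - 1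
    else 0) (by
      intro l
      by_cases hl : l = i
      · subst hl
        simp only [if_true]
        rw [Finset.sum_sub_distrib, Finset.sum_ite_eq' (A l) ℓ₀, if_pos hi, Finset.sum_const,
          S.blk.key.1 l, nsmul_eq_mul, mul_one, sub_self]
      · exact Finset.sum_eq_zero fun m _ => if_neg hl)
  obtain ⟨B, hB⟩ : ∃ B : ℝ, B = ∑ l ∈ W, bd l := ⟨_, rfl⟩
  have hB0 : 0 ≤ B := by
    rw [hB]
    exact Finset.sum_nonneg fun l _ => bd_nonneg l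
  obtain ⟨R, hR⟩ := exists_nat_gt (2 * B)
  choose p hp using fun n : ℕ => flr (fun j => ((n * R : ℕ) : ℝ) * v j)
  have hpe : ∀ n, ∀ ℓ ∈ W, |ev ℓ (p n) - ((n * R : ℕ) : ℝ) * ℓ v| ≤ B := by
    intro n ℓ hℓ
    have h4 := diff_le ℓ _ (p n) (hp n)
    have h5 : ℓ (fun j => ((n * R : ℕ) : ℝ) * v j) = ((n * R : ℕ) : ℝ) * ℓ v := by
      have : (fun j => ((n * R : ℕ) : ℝ) * v j) = ((n * R : ℕ) : ℝ) • v := rfl
      rw [this, map_smul, smul_eq_mul]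
    rw [h5] at h4
    rw [hB]
    exact h4.trans (Finset.single_le_sum (fun l _ => bd_nonneg l) hℓ)
  have hle : ∀ ℓ ∈ W, ℓ ≠ ℓ₀ → ℓ v ≤ 0 := by
    intro ℓ hℓ hne
    obtain ⟨l, hl⟩ := S.blk.ex ℓ hℓ
    rw [hv l ℓ hl, if_neg hne]
    split_ifs
    · norm_num
    · exact le_rfl
  have hbound : ∀ n, ∀ ℓ ∈ W, |S.hh ℓ (S.F (p n) x)| ≤
      ∑ ℓ ∈ W, Real.exp B * |S.hh ℓ x| := by
    intro n ℓ hℓ
    have h1 : |S.hh ℓ (S.F (p n) x)| ≤ Real.exp B * |S.hh ℓ x| := by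
      rw [S.hh_F ℓ hℓ, abs_mul, abs_of_pos (Real.exp_pos _)]
      by_cases hne : ℓ = ℓ₀
      · rw [hne, h0, abs_zero, mul_zero, mul_zero]
      · refine mul_le_mul_of_nonneg_right (Real.exp_le_exp.2 ?_) (abs_nonneg _)
        have h2 := (abs_le.1 (hpe n ℓ hℓ)).2
        have h3 : ((n * R : ℕ) : ℝ) * ℓ v ≤ 0 :=
          mul_nonpos_of_nonneg_of_nonpos (Nat.cast_nonneg _) (hle ℓ hℓ hne)
        linarith
    refine h1.trans ?_
    exact Finset.single_le_sum (f := fun ℓ => Real.exp B * |S.hh ℓ x|)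
      (fun l _ => mul_nonneg (Real.exp_pos _).le (abs_nonneg _)) hℓ
  obtain ⟨a, b, hab, hF⟩ := S.pigeon p hbound
  have hdiff : ∀ ℓ ∈ A i, ℓ ≠ ℓ₀ → ev ℓ (p b) < ev ℓ (p a) := by
    intro ℓ hℓ hne
    have h1 := hv i ℓ hℓ
    rw [if_pos rfl, if_neg hne, zero_sub] at h1
    have h2 := (abs_le.1 (hpe b ℓ (S.blk.sub i hℓ))).2
    have h3 := (abs_le.1 (hpe a ℓ (S.blk.sub i hℓ))).1
    rw [h1] at h2 h3
    have h4 : ((a * R : ℕ) : ℝ) + R ≤ ((b * R : ℕ) : ℝ) := by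
      have h5 : a * R + R ≤ b * R := by
        have h6 : (a + 1) * R ≤ b * R := Nat.mul_le_mul_right R hab
        rwa [add_mul, one_mul] at h6
      exact_mod_cast h5
    linarith
  refine ⟨fun ℓ hℓ => ?_, p b + -p a, fun hw => ?_, ?_⟩
  · by_cases hne : ℓ = ℓ₀
    · rw [hne]
      exact h0
    · by_contra hh0
      have h1 := congrArg (S.hh ℓ) hF
      rw [S.hh_F ℓ (S.blk.sub i hℓ), S.hh_F ℓ (S.blk.sub i hℓ)] at h1
      have h2 := mul_right_cancel₀ hh0 h1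
      have h3 := Real.exp_injective h2
      have h4 := hdiff ℓ hℓ hne
      linarith
  · obtain ⟨ℓ, hℓ, hne⟩ := S.blk.exists_ne (i := i) ℓ₀
    have h1 := hdiff ℓ hℓ hne
    have h2 : ev ℓ (p b + -p a) = 0 := by rw [hw, ev_zero]
    rw [ev_add, ev_neg] at h2
    linarith
  · rw [add_comm, S.add, ← hF, ← S.add, neg_add_cancel, S.zero]

open Classical in
/-- the support of a point -/
noncomputable def supp (x : X) : Finset (Fin k) :=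
  Finset.univ.filter fun i => ∃ ℓ ∈ A i, S.hh ℓ x ≠ 0

theorem mem_supp (x : X) (i : Fin k) : i ∈ S.supp x ↔ ∃ ℓ ∈ A i, S.hh ℓ x ≠ 0 := by
  unfold supp
  simp

theorem ne_of_mem {x : X} {i : Fin k} (hi : i ∈ S.supp x) {ℓ : Frm r} (hℓ : ℓ ∈ A i) :
    S.hh ℓ x ≠ 0 := by
  intro h0
  obtain ⟨ℓ', hℓ', h1⟩ := (S.mem_supp x i).1 hi
  exact h1 ((S.vanish hℓ h0).1 ℓ' hℓ')

theorem zero_of_notMem {x : X} {i : Fin k} (hi : i ∉ S.supp x) {ℓ : Frm r} (hℓ : ℓ ∈ A i) :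
    S.hh ℓ x = 0 := by
  by_contra h0
  exact hi ((S.mem_supp x i).2 ⟨ℓ, hℓ, h0⟩)

theorem fixed {x : X} (h : S.supp x ≠ Finset.univ) : ∃ w, w ≠ 0 ∧ S.F w x = x := by
  classical
  obtain ⟨i, hi⟩ : ∃ i, i ∉ S.supp x := by
    by_contra hcon
    push Not at hcon
    exact h (Finset.eq_univ_of_forall hcon)
  obtain ⟨ℓ, hℓ⟩ : (A i).Nonempty := Finset.card_pos.1 (by
    have h1 := S.blk.key.1 i
    have h2 := S.blk.two i
    omega)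
  exact (S.vanish hℓ (S.zero_of_notMem hi hℓ)).2

/-- the orbits of the points with empty support are finite -/
theorem finite_iff (x : X) : S.supp x = ∅ ↔ (Set.range fun v => S.F v x).Finite := by
  classical
  constructor
  · intro h
    have h0 : ∀ ℓ ∈ W, S.hh ℓ x = 0 := by
      intro ℓ hℓ
      obtain ⟨i, hi⟩ := S.blk.ex ℓ hℓ
      exact S.zero_of_notMem (by rw [h]; exact Finset.notMem_empty i) hi
    refine (S.finite_of_bdd (S.deg x) 0).subset ?_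
    rintro _ ⟨v, rfl⟩
    refine ⟨(S.deg_F _ _).le, fun ℓ hℓ => ?_⟩
    rw [S.hh_F ℓ hℓ, h0 ℓ hℓ, mul_zero, abs_zero]
  · intro h
    rw [Finset.eq_empty_iff_forall_notMem]
    intro i hi
    obtain ⟨ℓ, hℓ, hne0⟩ := (S.mem_supp x i).1 hi
    obtain ⟨ℓ', hℓ', hne⟩ := S.blk.exists_ne (i := i) ℓ
    obtain ⟨v, hv⟩ := S.blk.neg hℓ'
    have h1 : ev ℓ v < 0 := hv ℓ hℓ (Ne.symm hne)
    obtain ⟨a, b, hab, hF⟩ := h.exists_lt_map_eq_of_forall_mem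
      (f := fun n : ℕ => S.F (n • v) x) (fun n => by
        refine ⟨n • v, rfl⟩)
    have h2 := congrArg (S.hh ℓ) hF
    simp only [S.hh_F ℓ (S.blk.sub i hℓ), ev_nsmul] at h2
    have h3 := Real.exp_injective (mul_right_cancel₀ hne0 h2)
    have h4 : (a : ℝ) < b := by exact_mod_cast hab
    nlinarith

/-- the elements which fix a point act trivially on the blocks of its support -/
theorem stab {x : X} {w : Fin r → ℤ} (hw : S.F w x = x) {i : Fin k} (hi : i ∈ S.supp x)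
    {ℓ : Frm r} (hℓ : ℓ ∈ A i) : ev ℓ w = 0 := by
  have h1 := S.hh_F ℓ (S.blk.sub i hℓ) w x
  rw [hw] at h1
  have h2 := S.ne_of_mem hi hℓ
  have h3 : Real.exp (ev ℓ w) = 1 := by
    have h4 : (Real.exp (ev ℓ w) - 1) * S.hh ℓ x = 0 := by linarith
    have h5 := (mul_eq_zero.1 h4).resolve_right h2
    linarith
  exact (Real.exp_eq_one_iff _).1 h3

theorem stab_finite (x : X) :
    {z | ∃ w, (∀ i ∈ S.supp x, ∀ ℓ ∈ A i, ev ℓ w = 0) ∧ z = S.F w x}.Finite := by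
  refine (S.finite_of_bdd (S.deg x) (∑ ℓ ∈ W, |S.hh ℓ x|)).subset ?_
  rintro _ ⟨w, hw, rfl⟩
  refine ⟨(S.deg_F _ _).le, fun ℓ hℓ => ?_⟩
  rw [S.hh_F ℓ hℓ]
  obtain ⟨i, hi⟩ := S.blk.ex ℓ hℓ
  by_cases his : i ∈ S.supp x
  · rw [hw i his ℓ hi, Real.exp_zero, one_mul]
    exact Finset.single_le_sum (f := fun ℓ => |S.hh ℓ x|) (fun _ _ => abs_nonneg _) hℓ
  · rw [S.zero_of_notMem his hi, mul_zero, abs_zero]
    exact Finset.sum_nonneg fun _ _ => abs_nonneg _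

theorem finite_deg (e : ℕ) :
    {x | S.deg x ≤ e ∧ (Set.range fun v => S.F v x).Finite}.Finite := by
  refine (S.finite_of_bdd e 0).subset ?_
  rintro x ⟨hx, hf⟩
  refine ⟨hx, fun ℓ hℓ => ?_⟩
  obtain ⟨i, hi⟩ := S.blk.ex ℓ hℓ
  rw [← S.finite_iff] at hf
  rw [S.zero_of_notMem (by rw [hf]; exact Finset.notMem_empty i) hi, abs_zero]

include S in
theorem exists_nonneg (v : Fin r → ℤ) (i : Fin k) : ∃ ℓ ∈ A i, 0 ≤ ev ℓ v := by
  by_contra hcon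
  push Not at hcon
  have h1 := S.blk.sum i (S.blk.key.1 i)
  have h2 : ∑ ℓ ∈ A i, ev ℓ v = 0 := by
    have h3 := LinearMap.congr_fun h1 (fun j => (v j : ℝ))
    rwa [LinearMap.sum_apply] at h3
  have h4 : (A i).Nonempty := Finset.card_pos.1 (by
    have h5 := S.blk.key.1 i
    have h6 := S.blk.two i
    omega)
  have h5 := Finset.sum_lt_sum_of_nonempty h4 (f := fun ℓ => ev ℓ v) (g := fun _ => (0 : ℝ))
    fun ℓ hℓ => hcon ℓ hℓ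
  rw [h2, Finset.sum_const_zero] at h5
  exact lt_irrefl _ h5

open Classical in
/-- **Growth of the heights.** -/
theorem growth (x : X) (v : Fin r → ℤ) {T : Finset (Frm r)} (hT : T = (S.supp x).biUnion A)
    (hne : T.Nonempty) :
    Tendsto (fun n : ℕ => (S.hp ((S.F v)^[n] x)) ^ (1 / (n : ℝ))) atTop
      (𝓝 (T.sup' hne fun ℓ => Real.exp (ev ℓ v))) := by
  classical
  obtain ⟨D, hD⟩ : ∃ D, D = T.sup' hne fun ℓ => Real.exp (ev ℓ v) := ⟨_, rfl⟩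
  obtain ⟨ℓ₁, hℓ₁, hD1⟩ := Finset.exists_mem_eq_sup' hne fun ℓ => Real.exp (ev ℓ v)
  rw [← hD] at hD1 ⊢
  have hle : ∀ ℓ ∈ T, Real.exp (ev ℓ v) ≤ D := fun ℓ hℓ => by
    rw [hD]
    exact Finset.le_sup' (fun ℓ => Real.exp (ev ℓ v)) hℓ
  have hD0 : 0 < D := by
    rw [hD1]
    exact Real.exp_pos _
  have hmT : ∀ ℓ, ℓ ∈ T ↔ ∃ i ∈ S.supp x, ℓ ∈ A i := fun ℓ => by rw [hT, Finset.mem_biUnion]
  have hTW : ∀ ℓ ∈ T, ℓ ∈ W := fun ℓ hℓ => by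
    obtain ⟨i, -, hi⟩ := (hmT ℓ).1 hℓ
    exact S.blk.sub i hi
  have hD1' : 1 ≤ D := by
    obtain ⟨i, hi, -⟩ := (hmT ℓ₁).1 hℓ₁
    obtain ⟨ℓ, hℓ, h1⟩ := S.exists_nonneg v i
    exact (Real.one_le_exp h1).trans (hle ℓ ((hmT ℓ).2 ⟨i, hi, hℓ⟩))
  have hTne : ∀ ℓ ∈ T, S.hh ℓ x ≠ 0 := fun ℓ hℓ => by
    obtain ⟨i, his, hi⟩ := (hmT ℓ).1 hℓ
    exact S.ne_of_mem his hi
  have hTz : ∀ ℓ ∈ W, ℓ ∉ T → S.hh ℓ x = 0 := fun ℓ hℓ hn => by
    obtain ⟨i, hi⟩ := S.blk.ex ℓ hℓ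
    exact S.zero_of_notMem (fun his => hn ((hmT ℓ).2 ⟨i, his, hi⟩)) hi
  obtain ⟨C, hC, hup⟩ := S.up
  obtain ⟨K, hK, hlow⟩ := S.low
  have hH : 0 ≤ ∑ ℓ ∈ W, |S.hh ℓ x| := Finset.sum_nonneg fun _ _ => abs_nonneg _
  refine rate hD0 (x := |S.hh ℓ₁ x| / C) (y := K * (1 + ∑ ℓ ∈ W, |S.hh ℓ x|))
    (div_pos (abs_pos.2 (hTne ℓ₁ hℓ₁)) hC) (by positivity) (fun n => ?_) fun n => ?_
  · have h1 := hup ℓ₁ (hTW ℓ₁ hℓ₁) ((S.F v)^[n] x)
    rw [S.hh_iter (hTW ℓ₁ hℓ₁), ← hD1, abs_mul, abs_of_pos (by positivity : 0 < D ^ n)] at h1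
    rw [div_mul_eq_mul_div, div_le_iff₀ hC]
    linarith
  · refine (hlow _).trans ?_
    rw [mul_assoc]
    refine mul_le_mul_of_nonneg_left ?_ hK.le
    have h1 : ∑ ℓ ∈ W, |S.hh ℓ ((S.F v)^[n] x)| ≤ ∑ ℓ ∈ W, |S.hh ℓ x| * D ^ n := by
      refine Finset.sum_le_sum fun ℓ hℓ => ?_
      rw [S.hh_iter hℓ, abs_mul, abs_of_pos (by positivity), mul_comm]
      by_cases hℓT : ℓ ∈ T
      · exact mul_le_mul_of_nonneg_left (pow_le_pow_left₀ (Real.exp_pos _).le (hle ℓ hℓT) n)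
          (abs_nonneg _)
      · rw [hTz ℓ hℓ hℓT, abs_zero, zero_mul, zero_mul]
    have h2 : (1 : ℝ) ≤ D ^ n := one_le_pow₀ hD1'
    rw [← Finset.sum_mul] at h1
    rw [add_mul, one_mul]
    linarith

theorem growth_empty {x : X} (hx : S.supp x = ∅) (v : Fin r → ℤ) :
    Tendsto (fun n : ℕ => (S.hp ((S.F v)^[n] x)) ^ (1 / (n : ℝ))) atTop (𝓝 1) := by
  obtain ⟨K, hK, hlow⟩ := S.low
  have h0 : ∀ ℓ ∈ W, S.hh ℓ x = 0 := by
    intro ℓ hℓ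
    obtain ⟨i, hi⟩ := S.blk.ex ℓ hℓ
    exact S.zero_of_notMem (by rw [hx]; exact Finset.notMem_empty i) hi
  refine rate one_pos (x := 1) (y := K) one_pos hK (fun n => ?_) fun n => ?_
  · rw [one_pow, mul_one]
    exact S.one_le _
  · refine (hlow _).trans ?_
    rw [one_pow, mul_one]
    have h1 : ∑ ℓ ∈ W, |S.hh ℓ ((S.F v)^[n] x)| = 0 := Finset.sum_eq_zero fun ℓ hℓ => by
      rw [S.hh_iter hℓ, h0 ℓ hℓ, mul_zero, abs_zero]
    rw [h1, add_zero, mul_one]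

end KSys

end Run7.h528.KB
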