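import Pool.Agent.Run7.h528.KB.Grow
import Pool.Agent.Run7.h528.KB.Sys
import Pool.Agent.Run7.h528.KB.Defs

/-!
# Arithmetic degrees for abelian groups of automorphisms with invariant blocks of classes
-/

set_option autoImplicit false

open Filter Topology
open Pool.Agent.Q8.KS Run7.h334.KSR Run7.h528.MB
open Pool.Agent.N110.CC (PC Frm ev ev_add ev_zero ev_neg ev_nsmul)

namespace Run7.h528.KB

variable {G : Type} [Group G] {V : ProjVariety G} {r k ρ : ℕ}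

section

variable {Φ : LatticeAction V r} {U : Module.Basis (Fin ρ) ℝ V.NS} {β : Fin ρ → Fin k}
  {W : Finset (Frm r)} {Ab : Fin k → Finset (Frm r)} {b : Module.Basis W ℝ (Fin ρ → ℝ)}

open Classical in
/-- the eigenclasses -/
noncomputable def cl (U : Module.Basis (Fin ρ) ℝ V.NS) (b : Module.Basis W ℝ (Fin ρ → ℝ))
    (ℓ : Frm r) : V.NS := if h : ℓ ∈ W then U.equivFun.symm (b ⟨ℓ, h⟩) else 0

theorem cl_mem (ℓ : W) : cl U b ℓ.1 = U.equivFun.symm (b ℓ) := by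
  unfold cl
  rw [dif_pos ℓ.2]

theorem cl_nef (st : StrB (Cc U) (Gc U Φ) (Pi.basisFun ℝ (Fin ρ)) β W Ab b) {ℓ : Frm r}
    (hℓ : ℓ ∈ W) : cl U b ℓ ∈ V.Nef := by
  rw [cl_mem ⟨ℓ, hℓ⟩]
  exact st.mem ⟨ℓ, hℓ⟩

theorem cl_ne {ℓ : Frm r} (hℓ : ℓ ∈ W) : cl U b ℓ ≠ 0 := by
  rw [cl_mem ⟨ℓ, hℓ⟩]
  intro h
  have h1 := congrArg U.equivFun h
  rw [LinearEquiv.apply_symm_apply, map_zero] at h1
  exact b.ne_zero _ h1

theorem cl_eig (st : StrB (Cc U) (Gc U Φ) (Pi.basisFun ℝ (Fin ρ)) β W Ab b) {ℓ : Frm r}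
    (hℓ : ℓ ∈ W) (v : Fin r → ℤ) :
    (Φ.f v).ns (cl U b ℓ) = Real.exp (ev ℓ v) • cl U b ℓ := by
  have h1 := st.eig v ⟨ℓ, hℓ⟩
  rw [Gc_apply] at h1
  have h2 := congrArg U.equivFun.symm h1
  rw [LinearEquiv.symm_apply_apply, map_smul] at h2
  rw [cl_mem ⟨ℓ, hℓ⟩]
  exact h2

theorem cl_pow (st : StrB (Cc U) (Gc U Φ) (Pi.basisFun ℝ (Fin ρ)) β W Ab b) {ℓ : Frm r}
    (hℓ : ℓ ∈ W) (v : Fin r → ℤ) (n : ℕ) :
    ((Φ.f v).ns ^ n) (cl U b ℓ) = Real.exp (ev ℓ v) ^ n • cl U b ℓ := by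
  induction n with
  | zero => simp
  | succ n ih =>
    rw [pow_succ', Module.End.mul_apply, ih, map_smul, cl_eig st hℓ, smul_smul, pow_succ]

/-- the expansion of a class -/
theorem expand (D : V.NS) : ∃ y : Frm r → ℝ, (∀ ℓ : W, y ℓ.1 = b.repr (U.equivFun D) ℓ) ∧
    D = ∑ ℓ ∈ W, y ℓ • cl U b ℓ := by
  classical
  obtain ⟨y, hy⟩ : ∃ y : Frm r → ℝ, ∀ ℓ : W, y ℓ.1 = b.repr (U.equivFun D) ℓ :=
    ⟨fun ℓ => if h : ℓ ∈ W then b.repr (U.equivFun D) ⟨ℓ, h⟩ else 0, fun ℓ => dif_pos ℓ.2⟩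
  refine ⟨y, hy, ?_⟩
  rw [← Finset.sum_coe_sort W]
  apply U.equivFun.injective
  rw [map_sum]
  conv_lhs => rw [← b.sum_repr (U.equivFun D)]
  refine Finset.sum_congr rfl fun ℓ _ => ?_
  rw [map_smul, cl_mem, LinearEquiv.apply_symm_apply, hy]

/-- classes with positive coordinates are ample -/
theorem ample_of_pos (st : StrB (Cc U) (Gc U Φ) (Pi.basisFun ℝ (Fin ρ)) β W Ab b)
    {y : Frm r → ℝ} (hy : ∀ ℓ ∈ W, 0 < y ℓ) : ∑ ℓ ∈ W, y ℓ • cl U b ℓ ∈ interior V.Nef := by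
  classical
  have h1 : U.equivFun (∑ ℓ ∈ W, y ℓ • cl U b ℓ) ∈ interior (Cc U) := by
    rw [st.interior_iff]
    intro ℓ
    have h2 : U.equivFun (∑ ℓ ∈ W, y ℓ • cl U b ℓ) = ∑ ℓ : W, y ℓ.1 • b ℓ := by
      rw [← Finset.sum_coe_sort W, map_sum]
      refine Finset.sum_congr rfl fun ℓ _ => ?_
      rw [map_smul, cl_mem, LinearEquiv.apply_symm_apply]
    rw [h2, b.repr_sum_self]
    exact hy ℓ.1 ℓ.2
  rw [interior_Cc, LinearEquiv.symm_apply_apply] at h1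
  exact h1

theorem ample_pos (st : StrB (Cc U) (Gc U Φ) (Pi.basisFun ℝ (Fin ρ)) β W Ab b) {D : V.NS}
    (hD : D ∈ interior V.Nef) {y : Frm r → ℝ}
    (hy : ∀ ℓ : W, y ℓ.1 = b.repr (U.equivFun D) ℓ) : ∀ ℓ ∈ W, 0 < y ℓ := by
  intro ℓ hℓ
  rw [hy ⟨ℓ, hℓ⟩]
  have h1 : U.equivFun D ∈ interior (Cc U) := by
    rw [interior_Cc, LinearEquiv.symm_apply_apply]
    exact hD
  exact st.interior_iff.1 h1 ⟨ℓ, hℓ⟩

open Classical in
/-- **Growth rates of classes.** -/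
theorem class_rate (st : StrB (Cc U) (Gc U Φ) (Pi.basisFun ℝ (Fin ρ)) β W Ab b) {A : V.Pic}
    (hA : V.IsAmple A) {T : Finset (Frm r)} (hT : T ⊆ W) (hne : T.Nonempty) {y : Frm r → ℝ}
    (hy : ∀ ℓ ∈ T, 0 < y ℓ) (v : Fin r → ℤ) :
    IsGrowthRate (Φ.f v) A (∑ ℓ ∈ T, y ℓ • cl U b ℓ)
      (T.sup' hne fun ℓ => Real.exp (ev ℓ v)) := by
  obtain ⟨D, hD⟩ : ∃ D, D = T.sup' hne fun ℓ => Real.exp (ev ℓ v) := ⟨_, rfl⟩
  obtain ⟨ℓ₁, hℓ₁, hD1⟩ := Finset.exists_mem_eq_sup' hne fun ℓ => Real.exp (ev ℓ v)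
  rw [← hD] at hD1 ⊢
  have hle : ∀ ℓ ∈ T, Real.exp (ev ℓ v) ≤ D := fun ℓ hℓ => by
    rw [hD]
    exact Finset.le_sup' (fun ℓ => Real.exp (ev ℓ v)) hℓ
  have hD0 : 0 < D := by
    rw [hD1]
    exact Real.exp_pos _
  have hdeg : ∀ ℓ ∈ T, 0 < V.deg (V.cls A) (cl U b ℓ) := fun ℓ hℓ =>
    V.int_pos _ hA _ (cl_nef st (hT hℓ)) (cl_ne (hT hℓ))
  have hform : ∀ n : ℕ, V.deg (V.cls A) (((Φ.f v).ns ^ n) (∑ ℓ ∈ T, y ℓ • cl U b ℓ)) =
      ∑ ℓ ∈ T, y ℓ * V.deg (V.cls A) (cl U b ℓ) * Real.exp (ev ℓ v) ^ n := by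
    intro n
    rw [map_sum, map_sum]
    refine Finset.sum_congr rfl fun ℓ hℓ => ?_
    rw [map_smul, cl_pow st (hT hℓ), map_smul, map_smul, smul_eq_mul, smul_eq_mul]
    ring
  refine rate hD0 (x := y ℓ₁ * V.deg (V.cls A) (cl U b ℓ₁))
    (y := ∑ ℓ ∈ T, y ℓ * V.deg (V.cls A) (cl U b ℓ)) (mul_pos (hy _ hℓ₁) (hdeg _ hℓ₁))
    (Finset.sum_pos (fun ℓ hℓ => mul_pos (hy _ hℓ) (hdeg _ hℓ)) hne) (fun n => ?_) fun n => ?_
  · rw [hform]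
    refine le_trans (le_of_eq ?_) (Finset.single_le_sum (f := fun ℓ =>
      y ℓ * V.deg (V.cls A) (cl U b ℓ) * Real.exp (ev ℓ v) ^ n) (fun ℓ hℓ => ?_) hℓ₁)
    · show _ = y ℓ₁ * V.deg (V.cls A) (cl U b ℓ₁) * Real.exp (ev ℓ₁ v) ^ n
      rw [← hD1]
    · have h1 := hy _ hℓ
      have h2 := hdeg _ hℓ
      show 0 ≤ y ℓ * V.deg (V.cls A) (cl U b ℓ) * Real.exp (ev ℓ v) ^ n
      positivity
  · rw [hform, Finset.sum_mul]
    refine Finset.sum_le_sum fun ℓ hℓ => ?_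
    have h1 := hy _ hℓ
    have h2 := hdeg _ hℓ
    exact mul_le_mul_of_nonneg_left (pow_le_pow_left₀ (Real.exp_pos _).le (hle ℓ hℓ) n)
      (by positivity)

end

/-- **The system of the canonical heights.** -/
theorem exists_sys {Φ : LatticeAction V r} {A : V.Pic} (hA : V.IsAmple A)
    {u : V.Pt → ℝ} (hu : V.IsHeight A u)
    (hpos : ∀ v : Fin r → ℤ, v ≠ 0 → ∃ d, 1 < d ∧ IsDynamicalDegree (Φ.f v) A d)
    {U : Module.Basis (Fin ρ) ℝ V.NS} {β : Fin ρ → Fin k}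
    {W : Finset (Frm r)} {Ab : Fin k → Finset (Frm r)} {b : Module.Basis W ℝ (Fin ρ → ℝ)}
    (st : StrB (Cc U) (Gc U Φ) (Pi.basisFun ℝ (Fin ρ)) β W Ab b) (hWne : W.Nonempty) :
    ∃ S : KSys V.Pt W Ab (fun i => Fintype.card {j // β j = i}),
      S.F = (fun v => (Φ.f v).pt) ∧ S.hp = (fun x => max 1 (u x)) ∧
      S.deg = fun x => (MulAction.orbit G x).ncard := by
  classical
  obtain ⟨s, η, hs, hη, hinv⟩ := exists_lift V.toVariety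
  obtain ⟨hp, hhp⟩ : ∃ hp : V.Pt → ℝ, hp = fun x => max 1 (u x) := ⟨_, rfl⟩
  have hp1 : ∀ x, 1 ≤ hp x := fun x => by rw [hhp]; exact le_max_left _ _
  have hup : ∀ x, u x ≤ hp x := fun x => by rw [hhp]; exact le_max_right _ _
  have hsqle : ∀ x, √(hp x) ≤ hp x := fun x => by
    rw [Real.sqrt_le_left (by linarith [hp1 x])]
    have := hp1 x
    nlinarith
  -- functoriality
  have hpull : ∀ (v : Fin r → ℤ), ∀ ℓ ∈ W, ∃ K : ℝ, 0 < K ∧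
      ∀ x, |η (cl U b ℓ) ((Φ.f v).pt x) - Real.exp (ev ℓ v) * η (cl U b ℓ) x| ≤ K * √(hp x) := by
    intro v ℓ hℓ
    obtain ⟨K, hK, h1⟩ := lift_pull V.toVariety s η hs hη (Φ.f v) hA hu
    refine ⟨K * ‖cl U b ℓ‖ + 1, by positivity, fun x => ?_⟩
    have h2 := h1 (cl U b ℓ) x
    rw [cl_eig st hℓ, map_smul, Pi.smul_apply, smul_eq_mul] at h2
    refine h2.trans ?_
    rw [hhp]
    refine mul_le_mul_of_nonneg_right (by linarith) (Real.sqrt_nonneg _)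
  -- growth
  have hgrow : ∀ (v : Fin r → ℤ) (d : ℝ), 1 < d → IsDynamicalDegree (Φ.f v) A d →
      ∃ (ℓ : ℕ) (B : ℝ), 0 < B ∧ ∀ k x, hp ((Φ.f v).pt^[k] x) ≤ B * gr ℓ d k * hp x := by
    intro v d hd hdyn
    obtain ⟨ℓ, c, B, hc, hB, hlow, -, hmain⟩ := along V.toVariety s η hs hη (Φ.f v) hA hu hd hdyn
    refine ⟨ℓ, B + 1, by linarith, fun k x => ?_⟩
    have h1 := (hmain k x).1
    have h2 := gr_one_le ℓ hd k
    have h3 := hp1 x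
    have h4 : 1 ≤ gr ℓ d k * hp x := by nlinarith
    have h5 : u ((Φ.f v).pt^[k] x) ≤ B * (gr ℓ d k * hp x) := by
      rw [hhp, ← mul_assoc]; exact h1
    have h6 : 0 ≤ B * (gr ℓ d k * hp x) := by positivity
    rw [show hp ((Φ.f v).pt^[k] x) = max 1 (u ((Φ.f v).pt^[k] x)) by rw [hhp], mul_assoc, add_mul,
      one_mul]
    exact max_le (by linarith) (by linarith)
  obtain ⟨a, ha, haA⟩ := expand (U := U) (b := b) (V.cls A)
  have hapos := ample_pos st hA ha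
  -- canonical heights
  have hcan : ∀ ℓ ∈ W, ∃ (h : V.Pt → ℝ) (C : ℝ), 0 < C ∧
      (∀ x, |h x - η (cl U b ℓ) x| ≤ C * √(hp x)) ∧
      ∀ (v : Fin r → ℤ) x, h ((Φ.f v).pt x) = Real.exp (ev ℓ v) * h x := by
    intro ℓ hℓ
    obtain ⟨v₀, hv₀⟩ := st.blk.dir hℓ
    obtain ⟨i, hi⟩ := st.blk.ex ℓ hℓ
    obtain ⟨ℓ', hℓ', hne⟩ := st.blk.exists_ne (i := i) ℓ
    have hv0 : v₀ ≠ 0 := by
      rintro rfl
      have h1 := hv₀ ℓ' (st.blk.sub i hℓ') hne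
      rw [ev_zero, ev_zero] at h1
      exact lt_irrefl _ h1
    obtain ⟨d, hd, hdyn⟩ := hpos v₀ hv0
    have hrate := class_rate st hA (T := W) subset_rfl hWne hapos v₀
    rw [← haA] at hrate
    have hdeq : d = W.sup' hWne fun ℓ => Real.exp (ev ℓ v₀) := tendsto_nhds_unique hdyn hrate
    have hmax : W.sup' hWne (fun ℓ => Real.exp (ev ℓ v₀)) = Real.exp (ev ℓ v₀) := by
      refine le_antisymm (Finset.sup'_le _ _ fun m hm => ?_)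
        (Finset.le_sup' (fun ℓ => Real.exp (ev ℓ v₀)) hℓ)
      by_cases hmℓ : m = ℓ
      · rw [hmℓ]
      · exact Real.exp_le_exp.2 (hv₀ m hm hmℓ).le
    rw [hmax] at hdeq
    rw [hdeq] at hd hdyn
    obtain ⟨K, hK, h1⟩ := hpull v₀ ℓ hℓ
    obtain ⟨l, B, hB, h2⟩ := hgrow v₀ _ hd hdyn
    obtain ⟨h, C, hC, h3, h4, h5⟩ := can (Φ.f v₀).pt (η (cl U b ℓ)) hp hd hK hB h1 h2
    refine ⟨h, C, hC, h3, fun v x => ?_⟩
    obtain ⟨K', hK', h6⟩ := hpull v ℓ hℓ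
    refine can_equiv (g := (Φ.f v₀).pt) (f := (Φ.f v).pt) hd (fun y => ?_) h6 h4 h5 x
    rw [← Φ.pt_add, ← Φ.pt_add, add_comm]
  choose! hh C hC hhη hhF using hcan
  -- the ample class
  obtain ⟨L, hL⟩ : ∃ L : V.Pic, L = ∑ ℓ ∈ W, s (cl U b ℓ) := ⟨_, rfl⟩
  have hLcls : V.cls L = ∑ ℓ ∈ W, (1 : ℝ) • cl U b ℓ := by
    rw [hL, map_sum]
    exact Finset.sum_congr rfl fun i _ => by rw [hs, one_smul]
  have hLint : V.cls L ∈ interior V.Nef := by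
    rw [hLcls]
    exact ample_of_pos st fun _ _ => one_pos
  obtain ⟨t, ht, htA⟩ : ∃ t : ℝ, 0 < t ∧ V.cls (L - t • A) ∈ interior V.Nef := by
    have h1 : U.equivFun (V.cls L) ∈ interior (Cc U) := by
      rw [interior_Cc, LinearEquiv.symm_apply_apply]
      exact hLint
    obtain ⟨t, ht, h2⟩ := Pool.Agent.N165.KM.interior_sub h1 (U.equivFun (V.cls A))
    refine ⟨t, ht, ?_⟩
    rw [← map_smul, ← map_sub, interior_Cc, LinearEquiv.symm_apply_apply] at h2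
    rw [map_sub, map_smul]
    exact h2
  have hLη : V.IsHeight L (∑ ℓ ∈ W, η (cl U b ℓ)) := by
    unfold Variety.IsHeight
    rw [hL, map_sum, map_sum]
    exact Finset.sum_congr rfl fun i _ => hη _
  obtain ⟨c0, hc0⟩ := V.ample_height _ htA _
    (height_sub V.toVariety hLη (height_smul V.toVariety t hu))
  have hZb : ∀ x, u x ≤ t⁻¹ * (∑ ℓ ∈ W, |η (cl U b ℓ) x| + |c0|) := by
    intro x
    have h1 := hc0 x
    simp only [Pi.sub_apply, Finset.sum_apply, Pi.smul_apply, smul_eq_mul] at h1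
    have h2 : ∑ ℓ ∈ W, η (cl U b ℓ) x ≤ ∑ ℓ ∈ W, |η (cl U b ℓ) x| :=
      Finset.sum_le_sum fun i _ => le_abs_self _
    have h3 := neg_abs_le c0
    rw [le_inv_mul_iff₀ ht]
    linarith
  obtain ⟨CS, hCS⟩ : ∃ CS : ℝ, CS = ∑ ℓ ∈ W, C ℓ := ⟨_, rfl⟩
  have hCS0 : 0 ≤ CS := by
    rw [hCS]
    exact Finset.sum_nonneg fun ℓ hℓ => (hC ℓ hℓ).le
  have hlow : ∀ x, hp x ≤ (2 + 2 * t⁻¹ + 2 * t⁻¹ * |c0| + (t⁻¹ * CS) ^ 2) *
      (1 + ∑ ℓ ∈ W, |hh ℓ x|) := by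
    intro x
    have hH : 0 ≤ ∑ ℓ ∈ W, |hh ℓ x| := Finset.sum_nonneg fun _ _ => abs_nonneg _
    have h1 : ∑ ℓ ∈ W, |η (cl U b ℓ) x| ≤ ∑ ℓ ∈ W, |hh ℓ x| + CS * √(hp x) := by
      rw [hCS, Finset.sum_mul, ← Finset.sum_add_distrib]
      refine Finset.sum_le_sum fun ℓ hℓ => ?_
      have h2 := hhη ℓ hℓ x
      have h3 : |η (cl U b ℓ) x| ≤ |hh ℓ x| + |hh ℓ x - η (cl U b ℓ) x| := by
        have := abs_sub (hh ℓ x) (hh ℓ x - η (cl U b ℓ) x)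
        rwa [sub_sub_cancel] at this
      linarith
    have h2 : hp x ≤ 1 + t⁻¹ * (∑ ℓ ∈ W, |hh ℓ x| + CS * √(hp x) + |c0|) := by
      have h3 : u x ≤ t⁻¹ * (∑ ℓ ∈ W, |hh ℓ x| + CS * √(hp x) + |c0|) :=
        (hZb x).trans (mul_le_mul_of_nonneg_left (by linarith) (by positivity))
      have h4 : 0 ≤ t⁻¹ * (∑ ℓ ∈ W, |hh ℓ x| + CS * √(hp x) + |c0|) := by positivity
      calc hp x = max 1 (u x) := by rw [hhp]
        _ ≤ _ := max_le (by linarith) (by linarith)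
    have h3 : √(hp x) ^ 2 = hp x := Real.sq_sqrt (by linarith [hp1 x])
    have h4 : 2 * (t⁻¹ * CS * √(hp x)) ≤ (t⁻¹ * CS) ^ 2 + hp x := by
      have := sq_nonneg (t⁻¹ * CS - √(hp x))
      nlinarith
    have h5 : hp x ≤ 2 + 2 * t⁻¹ * ∑ ℓ ∈ W, |hh ℓ x| + 2 * t⁻¹ * |c0| + (t⁻¹ * CS) ^ 2 := by
      have e1 : t⁻¹ * (∑ ℓ ∈ W, |hh ℓ x| + CS * √(hp x) + |c0|) =
          t⁻¹ * ∑ ℓ ∈ W, |hh ℓ x| + t⁻¹ * CS * √(hp x) + t⁻¹ * |c0| := by ring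
      rw [e1] at h2
      linarith
    refine h5.trans ?_
    have h6 : 0 ≤ (2 + 2 * t⁻¹ * |c0| + (t⁻¹ * CS) ^ 2) * ∑ ℓ ∈ W, |hh ℓ x| := by positivity
    have h7 : 0 ≤ 2 * t⁻¹ := by positivity
    nlinarith
  have hupp : ∃ K, 0 < K ∧ ∀ ℓ ∈ W, ∀ x, |hh ℓ x| ≤ K * hp x := by
    choose K6 hK6 using fun ℓ => height_bound V.toVariety hA hu (hη (cl U b ℓ))
    refine ⟨∑ ℓ ∈ W, (|K6 ℓ| + C ℓ) + 1, ?_, fun ℓ hℓ x => ?_⟩
    · have : 0 ≤ ∑ ℓ ∈ W, (|K6 ℓ| + C ℓ) := Finset.sum_nonneg fun ℓ hℓ => by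
        have := hC ℓ hℓ
        positivity
      linarith
    · have h1 := hhη ℓ hℓ x
      have h2 : |hh ℓ x| ≤ |η (cl U b ℓ) x| + |hh ℓ x - η (cl U b ℓ) x| := by
        have := abs_add_le (η (cl U b ℓ) x) (hh ℓ x - η (cl U b ℓ) x)
        rwa [add_sub_cancel] at this
      have h3 : |η (cl U b ℓ) x| ≤ |K6 ℓ| * hp x := by
        refine (hK6 ℓ x).trans ?_
        rw [hhp]
        exact mul_le_mul_of_nonneg_right (le_abs_self _) (le_trans zero_le_one (le_max_left _ _))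
      have h4 : C ℓ * √(hp x) ≤ C ℓ * hp x := mul_le_mul_of_nonneg_left (hsqle x) (hC ℓ hℓ).le
      have h5 : |K6 ℓ| + C ℓ ≤ ∑ ℓ ∈ W, (|K6 ℓ| + C ℓ) :=
        Finset.single_le_sum (f := fun ℓ => |K6 ℓ| + C ℓ) (fun m hm => by
          have := hC m hm
          positivity) hℓ
      have h6 := hp1 x
      have h7 : (|K6 ℓ| + C ℓ) * hp x ≤ (∑ ℓ ∈ W, (|K6 ℓ| + C ℓ)) * hp x :=
        mul_le_mul_of_nonneg_right h5 (by linarith)
      rw [add_mul] at h7 ⊢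
      linarith
  refine ⟨{ blk := st.blk
            F := fun v => (Φ.f v).pt
            zero := Φ.pt_zero
            add := Φ.pt_add
            hp := hp
            one_le := hp1
            deg := fun x => (MulAction.orbit G x).ncard
            deg_F := fun v x => ncard_orbit Φ v x
            fin := fun e C => (V.northcott A u hA hu e C).subset
              fun x hx => ⟨hx.1, (hup x).trans hx.2⟩
            hh := hh
            hh_F := hhF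
            up := hupp
            low := ⟨_, by positivity, hlow⟩ }, rfl, hhp, rfl⟩

end Run7.h528.KB
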